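import Pool.Agent.LibDw64.Defs

namespace Pool.Agent.LibDw64

section act

variable {l : ℕ} [NeZero l] {E : Type*} [Field E] (s : E)

/-- The solutions, indexed by the cyclic group. -/
abbrev Sol (l : ℕ) [NeZero l] {E : Type*} [Field E] (s : E) : Type _ :=
  {y : ZMod l → E // ∏ i, y i = 1 ∧ ∑ i, y i = s}

instance : MulAction (Multiplicative (ZMod l)) (Sol l s) where
  smul g y := ⟨fun i => y.1 (i + g.toAdd), by
    refine ⟨?_, ?_⟩
    · exact (Fintype.prod_equiv (Equiv.addRight g.toAdd) _ _ fun i => rfl).trans y.2.1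
    · exact (Fintype.sum_equiv (Equiv.addRight g.toAdd) _ _ fun i => rfl).trans y.2.2⟩
  one_smul y := by
    apply Subtype.ext
    funext i
    change y.1 (i + 0) = y.1 i
    rw [add_zero]
  mul_smul g h y := by
    apply Subtype.ext
    funext i
    change y.1 (i + (g.toAdd + h.toAdd)) = y.1 (i + g.toAdd + h.toAdd)
    rw [add_assoc]

lemma smul_apply (g : Multiplicative (ZMod l)) (y : Sol l s) (i : ZMod l) :
    (g • y).1 i = y.1 (i + g.toAdd) := rfl

end act

theorem count_eq_card (l : ℕ) [NeZero l] {E : Type*} [Field E] (s : E) :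
    count l s = Nat.card (Sol l s) := by
  obtain ⟨n, rfl⟩ := Nat.exists_eq_succ_of_ne_zero (NeZero.ne l)
  rfl

theorem dvd_count (l : ℕ) [Fact l.Prime] {E : Type*} [Field E] [Finite E] (s : E)
    (hs : s ^ l ≠ (l : E) ^ l) : l ∣ count l s := by
  rw [count_eq_card]
  have hG : IsPGroup l (Multiplicative (ZMod l)) := by
    refine IsPGroup.of_card (n := 1) ?_
    rw [Nat.card_eq_fintype_card, Fintype.card_multiplicative, ZMod.card, pow_one]
  have h := hG.card_modEq_card_fixedPoints (Sol l s)
  have h0 : IsEmpty (MulAction.fixedPoints (Multiplicative (ZMod l)) (Sol l s)) := by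
    refine ⟨fun y => hs ?_⟩
    obtain ⟨y, hy⟩ := y
    have hc : ∀ i, y.1 i = y.1 0 := by
      intro i
      have h1 := congrArg (fun z : Sol l s => z.1 0) (hy (Multiplicative.ofAdd i))
      simp only [smul_apply, toAdd_ofAdd, zero_add] at h1
      exact h1
    have h1 := y.2.1
    have h2 := y.2.2
    simp only [hc, Finset.prod_const, Finset.sum_const, Finset.card_univ, ZMod.card,
      nsmul_eq_mul] at h1 h2
    rw [← h2, mul_pow, h1, mul_one]
  rw [Nat.card_of_isEmpty (α := MulAction.fixedPoints (Multiplicative (ZMod l)) (Sol l s))] at h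
  exact (Nat.modEq_zero_iff_dvd).1 h

end Pool.Agent.LibDw64
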