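import Pool.Agent.LibDw64.A
import Pool.Agent.LibSS99.Main

open Finset Module

namespace Pool.Agent.LibDw64

/-- The part of the number of points which comes from the torus. -/
theorem exists_c (l : ℕ) (hl : Even (l - 1)) (Q : ℤ) :
    ∃ c : ℤ, c * Q = (Q - 1) ^ (l - 1) - 1 := by
  have h : Q ∣ (Q - 1) ^ (l - 1) - 1 := by
    have h1 : (Q - 1) - (-1) ∣ (Q - 1) ^ (l - 1) - (-1) ^ (l - 1) := sub_dvd_pow_sub_pow _ _ _
    rw [hl.neg_one_pow] at h1
    simpa using h1
  obtain ⟨c, hc⟩ := h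
  exact ⟨c, by rw [hc]; ring⟩

theorem sub_one_pow (l : ℕ) [Fact l.Prime] {L : Type*} [Field L] [CharP L l] (x : L) :
    (x - 1) ^ (l - 1) = ∑ j ∈ range l, x ^ j := by
  have hl : 0 < l - 1 := by
    have := (Fact.out : l.Prime).two_le
    omega
  by_cases hx : x = 1
  · subst hx
    simp [hl.ne']
  · have h1 : (x - 1) ^ (l - 1) * (x - 1) = x ^ l - 1 := by
      rw [← pow_succ, Nat.sub_add_cancel (Fact.out : l.Prime).one_le, sub_pow_char, one_pow]
    have h2 := geom_sum_mul x l
    exact mul_right_cancel₀ (sub_ne_zero.2 hx) (h1.trans h2.symm)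

theorem c_mod (l : ℕ) [Fact l.Prime] {L : Type*} [Field L] [CharP L l] (c Q : ℤ)
    (hc : c * Q = (Q - 1) ^ (l - 1) - 1) (hQ : (Q : L) ≠ 0) :
    (c : L) = ∑ j ∈ range (l - 1), (Q : L) ^ j := by
  have h1 : (c : L) * Q = ((Q : L) - 1) ^ (l - 1) - 1 := by exact_mod_cast congrArg (Int.cast (R := L)) hc
  rw [sub_one_pow l] at h1
  have h2 : ∑ j ∈ range l, (Q : L) ^ j = (∑ j ∈ range (l - 1), (Q : L) ^ j) * Q + 1 := by
    conv_lhs => rw [← Nat.sub_add_cancel (Fact.out : l.Prime).one_le, sum_range_succ']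
    rw [sum_mul, pow_zero]
    simp only [pow_succ]
  rw [h2, add_sub_cancel_right] at h1
  exact mul_right_cancel₀ hQ h1

/-- The traces condition. -/
def IsFrob (F : Type) [Field F] (l : ℕ) (s : F) (A : Matrix (Fin (l - 1)) (Fin (l - 1)) ℂ) :
    Prop :=
  ∀ (E : Type) [Field E] [Finite E] [Algebra F E], (A ^ finrank F E).trace =
    (((Nat.card E : ℂ) - 1) ^ (l - 1) - 1) / Nat.card E - count l (algebraMap F E s)

theorem card_ne {F : Type} [Field F] [Finite F] {l : ℕ} [Fact l.Prime] (hF : (l : F) ≠ 0) :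
    ((Nat.card F : ℕ) : ZMod l) ≠ 0 := by
  intro h
  rw [ZMod.natCast_eq_zero_iff] at h
  apply hF
  obtain ⟨p, hp⟩ := CharP.exists F
  have := Fintype.ofFinite F
  obtain ⟨n, hpp, hn⟩ := FiniteField.card F p
  rw [Nat.card_eq_fintype_card, hn] at h
  have h3 : l = p := (Nat.prime_dvd_prime_iff_eq (Fact.out : l.Prime) hpp).1
    ((Fact.out : l.Prime).dvd_of_dvd_pow h)
  rw [h3]
  exact CharP.cast_eq_zero F p

/-- The traces are integers, known modulo `l`. -/
theorem trace_int {F : Type} [Field F] [Finite F] {l : ℕ} [Fact l.Prime] (hl : l ≠ 2)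
    (hF : (l : F) ≠ 0) {s : F} (hs : s ^ l ≠ (l : F) ^ l)
    {A : Matrix (Fin (l - 1)) (Fin (l - 1)) ℂ} (hA : IsFrob F l s A) (r : ℕ) (hr : 0 < r) :
    ∃ t : ℤ, (A ^ r).trace = t ∧
      (t : ZMod l) = ∑ j ∈ range (l - 1), ((Nat.card F : ZMod l) ^ j) ^ r := by
  obtain ⟨p, hp⟩ := CharP.exists F
  have : Fact p.Prime := ⟨CharP.char_is_prime F p⟩
  have : NeZero r := ⟨hr.ne'⟩
  let E := FiniteField.Extension F p r
  have hE : finrank F E = r := FiniteField.finrank_extension F p r
  have hcard : Nat.card E = Nat.card F ^ r := by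
    rw [← hE]
    exact Module.natCard_eq_pow_finrank
  have hodd : Even (l - 1) := by
    rcases (Fact.out : l.Prime).eq_two_or_odd' with h | h
    · exact absurd h hl
    · exact Nat.Odd.sub_odd h odd_one
  obtain ⟨c, hc⟩ := exists_c l hodd (Nat.card E : ℤ)
  have hE0 : (Nat.card E : ℂ) ≠ 0 := by
    have := Nat.card_pos (α := E)
    exact_mod_cast this.ne'
  refine ⟨c - count l (algebraMap F E s), ?_, ?_⟩
  · have h1 := hA E
    rw [hE] at h1
    rw [h1]
    have h2 : ((c : ℤ) : ℂ) * (Nat.card E : ℂ) = ((Nat.card E : ℂ) - 1) ^ (l - 1) - 1 := by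
      have := congrArg (Int.cast (R := ℂ)) hc
      push_cast at this
      exact this
    rw [← h2, mul_div_assoc, div_self hE0, mul_one]
    push_cast
    rfl
  · have h1 : l ∣ count l (algebraMap F E s) := by
      refine dvd_count l _ ?_
      intro h
      apply hs
      apply (algebraMap F E).injective
      rw [map_pow, map_pow, map_natCast]
      exact h
    have hq : ((Nat.card F : ℕ) : ZMod l) ≠ 0 := card_ne hF
    have hQ : ((Nat.card E : ℤ) : ZMod l) ≠ 0 := by
      rw [Int.cast_natCast, hcard]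
      push_cast
      exact pow_ne_zero _ hq
    have h2 := c_mod l (L := ZMod l) c (Nat.card E : ℤ) hc hQ
    have h3 : ((count l (algebraMap F E s) : ℕ) : ZMod l) = 0 := (ZMod.natCast_eq_zero_iff _ _).2 h1
    push_cast
    push_cast at h3 h2
    rw [h3, sub_zero, h2]
    refine sum_congr rfl fun j _ => ?_
    rw [hcard]
    push_cast
    rw [← pow_mul, ← pow_mul, mul_comm]


/-- Part one. -/
theorem nodup_of_primitive {F : Type} [Field F] [Finite F] {l : ℕ} [Fact l.Prime] (hl : l ≠ 2)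
    (hF : (l : F) ≠ 0) {s : F} (hs : s ^ l ≠ (l : F) ^ l)
    {A : Matrix (Fin (l - 1)) (Fin (l - 1)) ℂ} (hA : IsFrob F l s A)
    (hq : orderOf (Nat.card F : ZMod l) = l - 1) : A.charpoly.roots.Nodup := by
  classical
  obtain ⟨L, _, _, _, ⟨φ⟩⟩ := LibSS99.exists_reduction ℂ l
  have hl1 : 0 < l - 1 := by
    have := (Fact.out : l.Prime).two_le
    omega
  let ι : ZMod l →+* L := ZMod.castHom dvd_rfl L
  have hι : Function.Injective ι := ι.injective
  have hq0 : (Nat.card F : ZMod l) ≠ 0 := by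
    intro h
    rw [h, orderOf_zero] at hq
    omega
  have hinj : Set.InjOn (fun j : ℕ => ι ((Nat.card F : ZMod l) ^ j)) (range (l - 1)) := by
    intro i hi j hj hij
    have h1 := hι hij
    have hi' : i < orderOf (Nat.card F : ZMod l) := by rw [hq]; simpa using hi
    have hj' : j < orderOf (Nat.card F : ZMod l) := by rw [hq]; simpa using hj
    exact pow_injOn_Iio_orderOf hi' hj' h1
  choose! t ht1 ht2 using trace_int hl hF hs hA
  rw [← Matrix.charpoly_toLin']
  refine LibSS99.nodup_of_reduction (Matrix.toLin' A) φ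
    ((range (l - 1)).image fun j : ℕ => ι ((Nat.card F : ZMod l) ^ j)) ?_ ?_
    (fun r => ((t r : ℤ) : integralClosure ℤ ℂ)) ?_ ?_
  · intro h
    obtain ⟨j, _, hj⟩ := mem_image.1 h
    rw [map_eq_zero] at hj
    exact pow_ne_zero _ hq0 hj
  · rw [card_image_of_injOn hinj, card_range, finrank_fin_fun]
  · intro r hr
    rw [← Matrix.toLin'_pow, Matrix.trace_toLin'_eq, ht1 r hr]
    push_cast
    rfl
  · intro r hr
    rw [map_intCast, sum_image hinj, ← map_intCast ι, ht2 r hr, map_sum]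
    refine sum_congr rfl fun j _ => ?_
    rw [map_pow]

end Pool.Agent.LibDw64
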