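import Pool.Agent.LibSS99.Main

open Polynomial

namespace Pool.Agent.LibDw64

/-- The rational polynomial with roots `a, a, c, d`. -/
noncomputable def pol (t : ℕ → ℤ) : ℚ[X] :=
  X ^ 4 - C (t 1 : ℚ) * X ^ 3 + C (((t 1 : ℚ) ^ 2 - t 2) / 2) * X ^ 2 -
    C (((t 1 : ℚ) ^ 3 - 3 * t 1 * t 2 + 2 * t 3) / 6) * X +
    C (((t 1 : ℚ) ^ 4 - 6 * (t 1 : ℚ) ^ 2 * t 2 + 3 * (t 2 : ℚ) ^ 2 + 8 * t 1 * t 3 - 6 * t 4) / 24)

theorem pol_monic (t : ℕ → ℤ) : (pol t).Monic := by
  unfold pol
  monicity!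

theorem pol_natDegree (t : ℕ → ℤ) : (pol t).natDegree = 4 := by
  unfold pol
  compute_degree!

theorem pol_map {a c d : ℂ} {t : ℕ → ℤ}
    (ht : ∀ r, 0 < r → 2 * a ^ r + c ^ r + d ^ r = (t r : ℂ)) :
    (pol t).map (algebraMap ℚ ℂ) = (X - C a) ^ 2 * (X - C c) * (X - C d) := by
  have h1 := ht 1 one_pos
  have h2 := ht 2 two_pos
  have h3 := ht 3 three_pos
  have h4 := ht 4 four_pos
  unfold pol
  simp only [Polynomial.map_add, Polynomial.map_sub, Polynomial.map_mul, Polynomial.map_pow,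
    Polynomial.map_X, Polynomial.map_C]
  have e0 : algebraMap ℚ ℂ (t 1 : ℚ) = 2 * a + c + d := by
    rw [map_intCast, ← h1]
    ring
  have e1 : algebraMap ℚ ℂ (((t 1 : ℚ) ^ 2 - t 2) / 2) =
      a ^ 2 + 2 * a * c + 2 * a * d + c * d := by
    simp only [map_div₀, map_sub, map_pow, map_intCast, map_ofNat]
    rw [← h1, ← h2]
    ring
  have e2 : algebraMap ℚ ℂ (((t 1 : ℚ) ^ 3 - 3 * t 1 * t 2 + 2 * t 3) / 6) =
      a ^ 2 * c + a ^ 2 * d + 2 * a * c * d := by
    simp only [map_div₀, map_sub, map_add, map_mul, map_pow, map_intCast, map_ofNat]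
    rw [← h1, ← h2, ← h3]
    ring
  have e3 : algebraMap ℚ ℂ (((t 1 : ℚ) ^ 4 - 6 * (t 1 : ℚ) ^ 2 * t 2 + 3 * (t 2 : ℚ) ^ 2 +
      8 * t 1 * t 3 - 6 * t 4) / 24) = a ^ 2 * c * d := by
    simp only [map_div₀, map_sub, map_add, map_mul, map_pow, map_intCast, map_ofNat]
    rw [← h1, ← h2, ← h3, ← h4]
    ring
  rw [e0, e1, e2, e3]
  simp only [map_add, map_mul, map_pow, map_ofNat]
  ring

/-- A double root is an integer, or the polynomial is a square. -/
theorem double {a c d : ℂ} {t : ℕ → ℤ}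
    (ht : ∀ r, 0 < r → 2 * a ^ r + c ^ r + d ^ r = (t r : ℂ)) :
    (∃ n : ℤ, a = n) ∨ ∃ u v : ℤ, t 1 = 2 * u ∧ t 2 = 2 * (u ^ 2 - 2 * v) ∧
      t 3 = 2 * (u ^ 3 - 3 * u * v) := by
  have hai : IsIntegral ℤ a := by
    have h := LibSS99.integral_of_psum (K := ℂ) (M := 4) ![a, a, c, d] (fun r hr => by
      have h1 := ht r hr
      have h2 : ∑ i, (![a, a, c, d] i) ^ r = (t r : ℂ) := by
        rw [← h1]
        simp only [Fin.sum_univ_four, Matrix.cons_val_zero, Matrix.cons_val_one, Matrix.cons_val]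
        ring
      rw [h2]
      exact isIntegral_algebraMap (R := ℤ) (x := t r)) 0
    exact h
  have haq : IsIntegral ℚ a := hai.tower_top
  have hev : ∀ P : ℚ[X], aeval a P = (P.map (algebraMap ℚ ℂ)).eval a := fun P => by
    rw [eval_map_algebraMap]
  have hP0 : aeval a (pol t) = 0 := by
    rw [hev, pol_map ht]
    simp
  have hP1 : aeval a (derivative (pol t)) = 0 := by
    rw [hev, ← derivative_map, pol_map ht]
    simp [derivative_mul, derivative_pow]
  set m := minpoly ℚ a with hm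
  have hmm : m.Monic := minpoly.monic haq
  obtain ⟨R, hR⟩ := minpoly.dvd ℚ a hP0
  have hsep : aeval a (derivative m) ≠ 0 :=
    (minpoly.irreducible haq).separable.aeval_derivative_ne_zero (minpoly.aeval ℚ a)
  have hRa : aeval a R = 0 := by
    rw [hR, derivative_mul, map_add, map_mul, map_mul, minpoly.aeval, zero_mul, add_zero] at hP1
    exact (mul_eq_zero.1 hP1).resolve_left hsep
  obtain ⟨S, hS⟩ := minpoly.dvd ℚ a hRa
  have hPm : pol t = m ^ 2 * S := by
    rw [hR, hS, sq, mul_assoc]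
  have hS0 : S ≠ 0 := by
    rintro rfl
    rw [mul_zero] at hPm
    exact (pol_monic t).ne_zero hPm
  have hdeg : 4 = 2 * m.natDegree + S.natDegree := by
    have h1 := congrArg natDegree hPm
    rw [pol_natDegree, natDegree_mul (pow_ne_zero _ hmm.ne_zero) hS0, natDegree_pow] at h1
    exact h1
  have hmZ : m = (minpoly ℤ a).map (algebraMap ℤ ℚ) :=
    minpoly.isIntegrallyClosed_eq_field_fractions' ℚ hai
  have hμ : (minpoly ℤ a).Monic := minpoly.monic hai
  have hnd : m.natDegree = (minpoly ℤ a).natDegree := by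
    rw [hmZ, hμ.natDegree_map]
  have hpos : 0 < (minpoly ℤ a).natDegree := minpoly.natDegree_pos hai
  have hcase : (minpoly ℤ a).natDegree = 1 ∨ (minpoly ℤ a).natDegree = 2 := by omega
  rcases hcase with h1 | h2
  · left
    have h3 := minpoly.aeval ℤ a
    rw [hμ.eq_X_add_C h1] at h3
    simp only [map_add, aeval_X, eq_intCast, map_intCast, aeval_C] at h3
    exact ⟨-(minpoly ℤ a).coeff 0, by push_cast; linear_combination h3⟩
  · right
    have hS1 : S = 1 := by
      have h4 : S.natDegree = 0 := by omega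
      have h5 : S.Monic := by
        have h6 := pol_monic t
        rw [hPm] at h6
        exact (hmm.pow 2).of_mul_monic_left h6
      exact h5.natDegree_eq_zero.1 h4
    rw [hS1, mul_one] at hPm
    have hμ2 : minpoly ℤ a = X ^ 2 + C ((minpoly ℤ a).coeff 1) * X + C ((minpoly ℤ a).coeff 0) := by
      have h7 := hμ.as_sum
      rw [h2] at h7
      conv_lhs => rw [h7]
      simp only [Finset.sum_range_succ, Finset.range_one, Finset.sum_singleton, pow_zero, mul_one,
        pow_one]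
      ring
    set β := (minpoly ℤ a).coeff 1 with hβ
    set γ := (minpoly ℤ a).coeff 0 with hγ
    have hmq : m = X ^ 2 + C (β : ℚ) * X + C (γ : ℚ) := by
      rw [hmZ, hμ2]
      simp
    have hfin : pol t = (X ^ 2 + C (β : ℚ) * X + C (γ : ℚ)) ^ 2 := by rw [hPm, hmq]
    have hexp : (X ^ 2 + C (β : ℚ) * X + C (γ : ℚ)) ^ 2 = X ^ 4 + C (2 * (β : ℚ)) * X ^ 3 +
        C ((β : ℚ) ^ 2 + 2 * γ) * X ^ 2 + C (2 * (β : ℚ) * γ) * X + C ((γ : ℚ) ^ 2) := by
      simp only [map_add, map_mul, map_pow, map_ofNat]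
      ring
    rw [hexp] at hfin
    have c3 := congrArg (fun P : ℚ[X] => P.coeff 3) hfin
    have c2 := congrArg (fun P : ℚ[X] => P.coeff 2) hfin
    have c1 := congrArg (fun P : ℚ[X] => P.coeff 1) hfin
    unfold pol at c3 c2 c1
    simp only [coeff_add, coeff_sub, coeff_C_mul, coeff_X_pow, coeff_X, coeff_C] at c3 c2 c1
    norm_num at c3 c2 c1
    refine ⟨-β, γ, ?_, ?_, ?_⟩
    · have : (t 1 : ℚ) = 2 * (-β) := by linarith
      exact_mod_cast this
    · have h8 : (t 1 : ℚ) = 2 * (-β) := by linarith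
      have : (t 2 : ℚ) = 2 * ((-β) ^ 2 - 2 * γ) := by
        rw [h8] at c2
        linarith
      exact_mod_cast this
    · have h8 : (t 1 : ℚ) = 2 * (-β) := by linarith
      have h9 : (t 2 : ℚ) = 2 * ((-β) ^ 2 - 2 * γ) := by
        rw [h8] at c2
        linarith
      have : (t 3 : ℚ) = 2 * ((-β) ^ 3 - 3 * (-β) * γ) := by
        rw [h8, h9] at c1
        linarith
      exact_mod_cast this

end Pool.Agent.LibDw64
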