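import Pool.Agent.LibDw64.H2

open MvPolynomial

namespace Pool.Agent.LibDw64

/-- Base change of the sum of coefficients. -/
theorem L_map {F E : Type*} [Field F] [Field E] (f : F →+* E) (g : MvPolynomial (Fin 5) F) :
    L E (MvPolynomial.map f g) = f (L F g) := by
  conv_lhs => rw [g.as_sum]
  conv_rhs => rw [g.as_sum]
  simp only [map_sum, map_monomial, L_monomial]
  refine Finset.sum_congr rfl fun v _ => ?_
  split_ifs <;> simp

theorem count_five {F : Type} [Field F] [Finite F] (s : F) : ∃ w : F,
    ∀ (E : Type) [Field E] [Finite E] [Algebra F E],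
      ((count 5 (algebraMap F E s) : ℕ) : F) = -4 - w ^ Module.finrank F E := by
  refine ⟨L F (ff s ^ (Nat.card F - 1)), fun E _ _ _ => ?_⟩
  apply (algebraMap F E).injective
  have h1 : ff (algebraMap F E s) = MvPolynomial.map (algebraMap F E) (ff s) := by
    unfold ff
    simp
  have hcard : Nat.card E = Nat.card F ^ Module.finrank F E := Module.natCard_eq_pow_finrank
  rw [map_natCast, count_five_eq, h1, ← map_pow, L_map, hcard, L_pow, map_sub, map_neg,
    map_ofNat, map_pow]

end Pool.Agent.LibDw64
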