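import Pool.Agent.LibDw64.B
import Pool.Agent.LibDw64.C
import Pool.Agent.LibDw64.HW

open Finset Module Polynomial

namespace Pool.Agent.LibDw64

/-- An integral double root, modulo five. -/
theorem int_root {n : ℤ} {c d : ℂ} {t : ℕ → ℤ} {q : ℕ}
    (ht : ∀ r, 0 < r → 2 * (n : ℂ) ^ r + c ^ r + d ^ r = (t r : ℂ))
    (hm : ∀ r, 0 < r → (t r : ZMod 5) = ∑ j ∈ range 4, ((q : ZMod 5) ^ j) ^ r)
    (hq : n ^ 2 = (q : ℤ) ^ 3) (h0 : (q : ZMod 5) ≠ 0) : (q : ZMod 5) = 1 := by
  have h1 : ((pol t).map (algebraMap ℚ ℂ)).eval (n : ℂ) = 0 := by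
    rw [pol_map ht]
    simp
  have h2 : (pol t).eval (n : ℚ) = 0 := by
    have h3 : ((pol t).map (algebraMap ℚ ℂ)).eval (n : ℂ) = algebraMap ℚ ℂ ((pol t).eval (n : ℚ)) := by
      have := Polynomial.eval_map_apply (f := algebraMap ℚ ℂ) (p := pol t) (x := (n : ℚ))
      rw [map_intCast] at this
      exact this
    rw [h1] at h3
    exact (map_eq_zero _).1 h3.symm
  have h4 : 24 * n ^ 4 - 24 * t 1 * n ^ 3 + 12 * (t 1 ^ 2 - t 2) * n ^ 2 -
      4 * (t 1 ^ 3 - 3 * t 1 * t 2 + 2 * t 3) * n +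
      (t 1 ^ 4 - 6 * t 1 ^ 2 * t 2 + 3 * t 2 ^ 2 + 8 * t 1 * t 3 - 6 * t 4) = 0 := by
    unfold pol at h2
    simp only [eval_add, eval_sub, eval_mul, eval_pow, eval_X, eval_C] at h2
    have h5 : (24 : ℚ) * n ^ 4 - 24 * t 1 * n ^ 3 + 12 * (t 1 ^ 2 - t 2) * n ^ 2 -
      4 * (t 1 ^ 3 - 3 * t 1 * t 2 + 2 * t 3) * n +
      (t 1 ^ 4 - 6 * t 1 ^ 2 * t 2 + 3 * t 2 ^ 2 + 8 * t 1 * t 3 - 6 * t 4) = 0 := by
      linear_combination 24 * h2
    exact_mod_cast h5
  have h5 := congrArg (Int.cast (R := ZMod 5)) h4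
  push_cast at h5
  have k1 := hm 1 one_pos
  have k2 := hm 2 two_pos
  have k3 := hm 3 three_pos
  have k4 := hm 4 four_pos
  rw [k1, k2, k3, k4] at h5
  have h6 : (n : ZMod 5) ^ 2 = (q : ZMod 5) ^ 3 := by exact_mod_cast congrArg (Int.cast (R := ZMod 5)) hq
  generalize (q : ZMod 5) = a at *
  generalize (n : ZMod 5) = b at *
  clear k1 k2 k3 k4 hm h1 h2 h4 hq ht
  revert a b
  simp only [sum_range_succ, range_one, sum_singleton]
  decide

theorem isSquare_of_cube {q : ℕ} {n : ℤ} (hq : n ^ 2 = (q : ℤ) ^ 3) : IsSquare q := by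
  rcases Nat.eq_zero_or_pos q with rfl | hpos
  · exact ⟨0, rfl⟩
  have h1 : (q : ℤ) ∣ n := by
    have : (q : ℤ) ^ 2 ∣ n ^ 2 := ⟨q, by rw [hq]; ring⟩
    exact (Int.pow_dvd_pow_iff two_ne_zero).1 this
  obtain ⟨c, rfl⟩ := h1
  have h2 : (q : ℤ) = c * c := by
    have h3 : (q : ℤ) ^ 2 * (c * c) = (q : ℤ) ^ 2 * q := by
      rw [show (q : ℤ) ^ 2 * (c * c) = (q * c) ^ 2 by ring, hq]
      ring
    exact (mul_left_cancel₀ (pow_ne_zero 2 (by exact_mod_cast hpos.ne')) h3).symm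
  refine ⟨c.natAbs, ?_⟩
  have h4 := congrArg Int.natAbs h2
  rw [Int.natAbs_natCast, Int.natAbs_mul] at h4
  exact h4

/-- The traces in the field. -/
theorem trace_field {F : Type} [Field F] [Finite F] {s : F}
    {A : Matrix (Fin (5 - 1)) (Fin (5 - 1)) ℂ} (hA : IsFrob F 5 s A) {t : ℕ → ℤ}
    (ht : ∀ r, 0 < r → (A ^ r).trace = t r) : ∃ w : F, ∀ r, 0 < r → (t r : F) = w ^ r := by
  obtain ⟨w, hw⟩ := count_five s
  refine ⟨w, fun r hr => ?_⟩
  obtain ⟨p, hp⟩ := CharP.exists F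
  have : Fact p.Prime := ⟨CharP.char_is_prime F p⟩
  have : NeZero r := ⟨hr.ne'⟩
  let E := FiniteField.Extension F p r
  have hE : finrank F E = r := FiniteField.finrank_extension F p r
  have hcard : Nat.card E = Nat.card F ^ r := by
    rw [← hE]
    exact Module.natCard_eq_pow_finrank
  have hE0 : (Nat.card E : ℂ) ≠ 0 := by
    have := Nat.card_pos (α := E)
    exact_mod_cast this.ne'
  have h1 := hA E
  rw [hE, ht r hr] at h1
  have h2 : (t r : ℂ) = ((Nat.card E : ℂ) ^ 3 - 4 * (Nat.card E : ℂ) ^ 2 + 6 * (Nat.card E : ℂ) - 4) -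
      count 5 (algebraMap F E s) := by
    rw [h1]
    field_simp
    ring
  have h3 : t r = ((Nat.card E : ℤ) ^ 3 - 4 * (Nat.card E : ℤ) ^ 2 + 6 * (Nat.card E : ℤ) - 4) -
      count 5 (algebraMap F E s) := by exact_mod_cast h2
  have h4 : ((Nat.card E : ℕ) : F) = 0 := by
    rw [hcard]
    push_cast
    have h5 : ((Nat.card F : ℕ) : F) = 0 := by
      have := Fintype.ofFinite F
      rw [Nat.card_eq_fintype_card]
      exact FiniteField.cast_card_eq_zero F
    rw [h5, zero_pow hr.ne']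
  have h5 := hw E
  rw [hE] at h5
  rw [h3]
  push_cast
  rw [h4, h5]
  ring

/-- Part two. -/
theorem nodup_five {F : Type} [Field F] [Finite F]
    (hF : ((5 : ℕ) : F) ≠ 0) {s : F} (hs : s ^ 5 ≠ ((5 : ℕ) : F) ^ 5)
    {A : Matrix (Fin (5 - 1)) (Fin (5 - 1)) ℂ} (hA : IsFrob F 5 s A)
    (hpure : ∀ z ∈ A.charpoly.roots, ‖z‖ ^ 2 = (Nat.card F : ℝ) ^ 3)
    (hq : ¬ IsSquare (Nat.card F) ∨ (Nat.card F : ZMod 5) ≠ 1)
    (hn : ∃ n : ℤ, A.trace = n ∧ (Odd n ∨ 5 < ringChar F ∧ (n : F) ≠ 0)) :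
    A.charpoly.roots.Nodup := by
  have : Fact (Nat.Prime 5) := ⟨by norm_num⟩
  by_contra hnd
  have hcard : Multiset.card A.charpoly.roots = 4 := by
    have h1 := (IsAlgClosed.splits A.charpoly).natDegree_eq_card_roots
    rw [Matrix.charpoly_natDegree_eq_dim, Fintype.card_fin] at h1
    omega
  obtain ⟨a, ha⟩ : ∃ a, a ::ₘ a ::ₘ 0 ≤ A.charpoly.roots := by
    rw [Multiset.nodup_iff_le] at hnd
    push Not at hnd
    exact hnd
  obtain ⟨R, hR⟩ := Multiset.le_iff_exists_add.1 ha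
  have hRc : Multiset.card R = 2 := by
    have := congrArg Multiset.card hR
    rw [hcard, Multiset.card_add] at this
    simp only [Multiset.card_cons, Multiset.card_zero] at this
    omega
  obtain ⟨c, d, rfl⟩ := Multiset.card_eq_two.1 hRc
  choose! t ht1 ht2 using trace_int (l := 5) (by norm_num) hF hs hA
  have ht : ∀ r, 0 < r → 2 * a ^ r + c ^ r + d ^ r = (t r : ℂ) := by
    intro r hr
    rw [← ht1 r hr, ← Matrix.trace_toLin'_eq, Matrix.toLin'_pow, LibSS99.trace_pow_eq,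
      Matrix.charpoly_toLin', hR]
    simp
    ring
  rcases double ht with ⟨n, rfl⟩ | ⟨u, v, h1, h2, h3⟩
  · have hz : (n : ℂ) ∈ A.charpoly.roots := by
      rw [hR]
      simp
    have hn2 : n ^ 2 = ((Nat.card F : ℕ) : ℤ) ^ 3 := by
      have h1 := hpure _ hz
      rw [Complex.norm_intCast, sq_abs] at h1
      exact_mod_cast h1
    rcases hq with h | h
    · exact h (isSquare_of_cube hn2)
    · refine h (int_root ht ht2 hn2 ?_)
      exact card_ne hF
  · obtain ⟨n, hn1, hn2⟩ := hn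
    have hnt : n = t 1 := by
      have := ht1 1 one_pos
      rw [pow_one, hn1] at this
      exact_mod_cast this
    rcases hn2 with hodd | ⟨hp, hne⟩
    · rw [hnt, h1] at hodd
      exact (Int.not_odd_iff_even.2 (even_two_mul u)) hodd
    · obtain ⟨w, hw⟩ := trace_field hA ht1
      have hchar : CharP F (ringChar F) := ringChar.charP F
      have hprime : (ringChar F).Prime := CharP.char_is_prime F _
      have hk : ∀ k : ℕ, 0 < k → k ≤ 5 → (k : F) ≠ 0 := by
        intro k hk0 hk h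
        have := Nat.le_of_dvd hk0 ((CharP.cast_eq_zero_iff F (ringChar F) k).1 h)
        omega
      have h2' : (2 : F) ≠ 0 := by exact_mod_cast hk 2 (by norm_num) (by norm_num)
      have h3' : (3 : F) ≠ 0 := by exact_mod_cast hk 3 (by norm_num) (by norm_num)
      have w1 := hw 1 one_pos
      have w2 := hw 2 two_pos
      have w3 := hw 3 three_pos
      rw [h1] at w1
      rw [h2] at w2
      rw [h3] at w3
      push_cast at w1 w2 w3
      rw [pow_one] at w1
      rw [hnt, h1] at hne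
      push_cast at hne
      have hu : (u : F) ≠ 0 := right_ne_zero_of_mul hne
      rw [← w1] at w2 w3
      have e1 : (u : F) ^ 2 + 2 * v = 0 := by
        have : (2 : F) * ((u : F) ^ 2 + 2 * v) = 0 := by linear_combination -w2
        exact (mul_eq_zero.1 this).resolve_left h2'
      have e2 : (u : F) ^ 2 + v = 0 := by
        have : (2 : F) * (3 * (u * ((u : F) ^ 2 + v))) = 0 := by linear_combination -w3
        exact (mul_eq_zero.1 ((mul_eq_zero.1 ((mul_eq_zero.1 this).resolve_left h2')).resolve_left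
          h3')).resolve_left hu
      have e3 : (v : F) = 0 := by linear_combination e1 - e2
      rw [e3, add_zero] at e2
      exact hu (pow_eq_zero_iff two_ne_zero |>.1 e2)

end Pool.Agent.LibDw64
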