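import Mathlib

open Polynomial Module

namespace Pool.Agent.LibDw64

/-- The number of solutions in `E` of `y_1 ⋯ y_n = 1`, `y_1 + ⋯ + y_n = s`. -/
noncomputable def count (n : ℕ) {E : Type*} [Field E] (s : E) : ℕ :=
  Nat.card {y : Fin n → E // ∏ i, y i = 1 ∧ ∑ i, y i = s}

/-- The condition on the traces of the powers of `A`: the numbers of solutions over all finite
extensions `E` of `F`. -/
def IsFrobN (F : Type) [Field F] (n : ℕ) (s : F) (A : Matrix (Fin (n - 1)) (Fin (n - 1)) ℂ) :
    Prop :=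
  ∀ (E : Type) [Field E] [Finite E] [Algebra F E], (A ^ finrank F E).trace =
    (-1) ^ n * (count n (algebraMap F E s) -
      (((Nat.card E : ℂ) - 1) ^ (n - 1) - (-1) ^ (n - 1)) / Nat.card E)

/-- The trinomial `r u ^ (r + 1) - s u ^ r + 1`. -/
noncomputable def tri {F : Type} [Field F] (r : ℕ) (s : F) : F[X] :=
  C (r : F) * X ^ (r + 1) - C s * X ^ r + 1

end Pool.Agent.LibDw64
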