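import Pool.Agent.LibDw64.Defs

open MvPolynomial Finset

namespace Pool.Agent.LibDw64

variable {R : Type*} [Field R]

/-- The sum of the coefficients of the powers of `y_1 ⋯ y_5`. -/
noncomputable def L (R : Type*) [Field R] : MvPolynomial (Fin 5) R →ₗ[R] R :=
  (basisMonomials (Fin 5) R).constr R fun v => if ∀ i, v i = v 0 then 1 else 0

theorem L_monomial (v : Fin 5 →₀ ℕ) (a : R) :
    L R (monomial v a) = if ∀ i, v i = v 0 then a else 0 := by
  have h1 : (monomial v a : MvPolynomial (Fin 5) R) = a • basisMonomials (Fin 5) R v := by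
    rw [coe_basisMonomials, smul_monomial, smul_eq_mul, mul_one]
  rw [h1, map_smul]
  unfold L
  rw [Module.Basis.constr_basis]
  split_ifs <;> simp

theorem L_mul_pow (p n : ℕ) [Fact p.Prime] [CharP R p] (g h : MvPolynomial (Fin 5) R)
    (hg : ∀ v ∈ g.support, ∀ i, v i < p ^ n) : L R (g * h ^ (p ^ n)) = L R g * L R h ^ (p ^ n) := by
  induction h using MvPolynomial.induction_on' with
  | monomial v b =>
    rw [monomial_pow]
    conv_lhs => rw [g.as_sum]
    conv_rhs => rw [g.as_sum]
    rw [sum_mul, map_sum, map_sum, sum_mul]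
    refine sum_congr rfl fun u hu => ?_
    rw [monomial_mul, L_monomial, L_monomial, L_monomial]
    have hpn : 0 < p ^ n := pow_pos (Fact.out : p.Prime).pos n
    have h1 : (∀ i, (u + p ^ n • v) i = (u + p ^ n • v) 0) ↔ (∀ i, u i = u 0) ∧ ∀ i, v i = v 0 := by
      simp only [Finsupp.add_apply, Finsupp.smul_apply, smul_eq_mul]
      constructor
      · intro h
        have h2 : ∀ i, u i = u 0 := by
          intro i
          have h3 := congrArg (· % p ^ n) (h i)
          simp only [Nat.add_mul_mod_self_left] at h3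
          rwa [Nat.mod_eq_of_lt (hg u hu i), Nat.mod_eq_of_lt (hg u hu 0)] at h3
        refine ⟨h2, fun i => ?_⟩
        have h3 := h i
        rw [h2 i, Nat.add_left_cancel_iff] at h3
        exact Nat.eq_of_mul_eq_mul_left hpn h3
      · rintro ⟨h2, h3⟩ i
        rw [h2 i, h3 i]
    by_cases c1 : ∀ i, u i = u 0
    · by_cases c2 : ∀ i, v i = v 0
      · rw [if_pos (h1.2 ⟨c1, c2⟩), if_pos c1, if_pos c2]
      · rw [if_neg (fun h => c2 (h1.1 h).2), if_neg c2, zero_pow hpn.ne', mul_zero]
    · rw [if_neg (fun h => c1 (h1.1 h).1), if_neg c1, zero_mul]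
  | add a b ha hb =>
    rw [add_pow_char_pow, mul_add, map_add, ha, hb, map_add, add_pow_char_pow, mul_add]

/-- The polynomial `y_1 + ⋯ + y_5 - s`. -/
noncomputable def ff (s : R) : MvPolynomial (Fin 5) R := ∑ i, X i - C s

theorem totalDegree_ff (s : R) : (ff s).totalDegree ≤ 1 := by
  unfold ff
  refine (totalDegree_sub _ _).trans (max_le ?_ ?_)
  · refine totalDegree_finsetSum_le fun i _ => ?_
    exact (totalDegree_X i).le
  · rw [totalDegree_C]
    exact zero_le_one

theorem sum_le_of_mem (s : R) (n : ℕ) {v : Fin 5 →₀ ℕ} (hv : v ∈ (ff s ^ n).support) :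
    ∑ i, v i ≤ n := by
  have h1 := le_totalDegree hv
  rw [Finsupp.sum_fintype _ _ (fun _ => rfl)] at h1
  refine h1.trans ((totalDegree_pow _ _).trans ?_)
  have := totalDegree_ff s
  calc n * (ff s).totalDegree ≤ n * 1 := Nat.mul_le_mul_left _ this
    _ = n := mul_one n

/-- Multiplicativity. -/
theorem L_pow {F : Type*} [Field F] [Finite F] (s : F) (k : ℕ) :
    L F (ff s ^ (Nat.card F ^ k - 1)) = L F (ff s ^ (Nat.card F - 1)) ^ k := by
  obtain ⟨p, hp⟩ := CharP.exists F
  have hpp : Fact p.Prime := ⟨CharP.char_is_prime F p⟩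
  have := Fintype.ofFinite F
  obtain ⟨n, _, hn⟩ := FiniteField.card F p
  have hc : Nat.card F = p ^ (n : ℕ) := by rw [Nat.card_eq_fintype_card, hn]
  have hpos : 0 < Nat.card F := Nat.card_pos
  induction k with
  | zero =>
    rw [pow_zero, Nat.sub_self, pow_zero, pow_zero]
    have h1 : (1 : MvPolynomial (Fin 5) F) = monomial 0 1 := rfl
    rw [h1, L_monomial]
    simp
  | succ k ih =>
    have e1 : Nat.card F ^ (k + 1) - 1 = (Nat.card F - 1) + (Nat.card F ^ k - 1) * Nat.card F := by
      have h2 : 0 < Nat.card F ^ k := pow_pos hpos k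
      zify [Nat.one_le_iff_ne_zero.2 (pow_pos hpos (k + 1)).ne', Nat.one_le_iff_ne_zero.2 h2.ne',
        Nat.one_le_iff_ne_zero.2 hpos.ne']
      ring
    rw [e1, pow_add, pow_mul]
    have h3 := L_mul_pow p n (ff s ^ (Nat.card F - 1)) (ff s ^ (Nat.card F ^ k - 1)) (by
      intro v hv i
      rw [← hc]
      have h4 := sum_le_of_mem s _ hv
      have h5 : v i ≤ ∑ i, v i := single_le_sum (fun _ _ => Nat.zero_le _) (mem_univ i)
      omega)
    rw [← hc] at h3
    rw [h3, ih, ← pow_mul]
    have h6 : ∀ a : F, a ^ Nat.card F = a := by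
      intro a
      rw [Nat.card_eq_fintype_card]
      exact FiniteField.pow_card a
    rw [mul_comm k, pow_mul, h6, ← pow_succ', ]

end Pool.Agent.LibDw64
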