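import Pool.Agent.LibDw64.H1

open MvPolynomial Finset

namespace Pool.Agent.LibDw64

variable {E : Type*} [Field E]

/-- The coefficient of `y_i ^ n` in `(y_1 + ⋯ + y_5 - s) ^ n`. -/
theorem coeff_ff_pow (s : E) (i : Fin 5) (n : ℕ) :
    coeff (Finsupp.single i n) (ff s ^ n) = 1 := by
  classical
  induction n with
  | zero => simp
  | succ n ih =>
    rw [pow_succ]
    conv_lhs => rw [show ff s ^ n * ff s = ∑ j, ff s ^ n * X j - ff s ^ n * C s by
      conv_lhs => rhs; unfold ff
      rw [mul_sub, mul_sum]]
    rw [coeff_sub, coeff_sum]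
    have h1 : ∀ j, coeff (Finsupp.single i (n + 1)) (ff s ^ n * X j) = if j = i then 1 else 0 := by
      intro j
      rw [coeff_mul_X']
      by_cases hj : j = i
      · subst hj
        rw [if_pos (by simp), if_pos rfl, ← ih]
        congr 1
        rw [← Finsupp.single_tsub, Nat.add_sub_cancel]
      · rw [if_neg hj, if_neg]
        simp [Ne.symm hj]
    simp only [h1, sum_ite_eq', mem_univ, if_true]
    have h2 : coeff (Finsupp.single i (n + 1)) (ff s ^ n * C s) = 0 := by
      rw [mul_comm, coeff_C_mul]
      have h3 : coeff (Finsupp.single i (n + 1)) (ff s ^ n) = 0 := by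
        by_contra h
        have h4 := sum_le_of_mem s n (mem_support_iff.2 h)
        have h5 : ∑ j, (Finsupp.single i (n + 1)) j = n + 1 := by
          simp only [Finsupp.single_apply]
          rw [sum_ite_eq, if_pos (mem_univ i)]
        omega
      rw [h3, mul_zero]
    rw [h2, sub_zero]

/-- The torus. -/
noncomputable def ph (E : Type*) [Field E] : (Fin 5 → Eˣ) →* Eˣ where
  toFun u := ∏ i, u i
  map_one' := by simp
  map_mul' u v := by simp [prod_mul_distrib]

theorem card_ker [Finite E] : ((Nat.card (ph E).ker : ℕ) : E) = 1 := by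
  have e : (ph E).ker ≃ (Fin 4 → Eˣ) :=
    { toFun := fun u => Fin.tail u.1
      invFun := fun w => ⟨Fin.cons (∏ i, w i)⁻¹ w, by
        rw [MonoidHom.mem_ker]
        change ∏ i, (Fin.cons (∏ i, w i)⁻¹ w : Fin 5 → Eˣ) i = 1
        rw [Fin.prod_cons, inv_mul_cancel]⟩
      left_inv := by
        intro u
        apply Subtype.ext
        have h1 : ∏ i, u.1 i = 1 := u.2
        rw [Fin.prod_univ_succ] at h1
        have h2 : (∏ i, Fin.tail u.1 i)⁻¹ = u.1 0 := by
          rw [inv_eq_iff_mul_eq_one, mul_comm]
          exact h1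
        change (Fin.cons (∏ i, Fin.tail u.1 i)⁻¹ (Fin.tail u.1) : Fin 5 → Eˣ) = u.1
        rw [h2]
        exact Fin.cons_self_tail _
      right_inv := fun w => Fin.tail_cons _ _ }
  rw [Nat.card_congr e, Nat.card_fun, Nat.card_units]
  have hE : ((Nat.card E : ℕ) : E) = 0 := by
    have := Fintype.ofFinite E
    rw [Nat.card_eq_fintype_card]
    exact FiniteField.cast_card_eq_zero E
  have h1 : 1 ≤ Nat.card E := Nat.card_pos
  push_cast [Nat.cast_sub h1]
  rw [hE]
  simp
  norm_num

/-- The character of the torus with exponents `v`. -/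
noncomputable def chv (v : Fin 5 →₀ ℕ) : (ph E).ker →* E where
  toFun u := ∏ i, ((u.1 i : Eˣ) : E) ^ v i
  map_one' := by simp
  map_mul' u w := by simp [mul_pow, prod_mul_distrib]

theorem chv_eq_one_iff [Finite E] (v : Fin 5 →₀ ℕ) :
    (chv v : (ph E).ker →* E) = 1 ↔ ∀ i, v i ≡ v 0 [MOD Nat.card E - 1] := by
  classical
  constructor
  · intro h i
    by_cases hi : i = 0
    · subst hi
      rfl
    obtain ⟨ζ, hζ⟩ := IsCyclic.exists_generator (α := Eˣ)
    have hord : orderOf ζ = Nat.card E - 1 := by
      rw [orderOf_eq_card_of_forall_mem_zpowers hζ, Nat.card_units]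
    let u : Fin 5 → Eˣ := fun j => if j = i then ζ else if j = 0 then ζ⁻¹ else 1
    have hu : u ∈ (ph E).ker := by
      rw [MonoidHom.mem_ker]
      change ∏ j, u j = 1
      have h2 : ∏ j, u j = u i * u 0 := by
        rw [← prod_subset (subset_univ {i, 0})]
        · rw [prod_pair hi]
        · intro j _ hj
          simp only [mem_insert, mem_singleton, not_or] at hj
          simp only [u, if_neg hj.1, if_neg hj.2]
      rw [h2]
      simp only [u, if_true, if_neg (Ne.symm hi)]
      exact mul_inv_cancel ζ
    have h3 := DFunLike.congr_fun h ⟨u, hu⟩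
    change ∏ j, ((u j : Eˣ) : E) ^ v j = 1 at h3
    have h4 : ∏ j, ((u j : Eˣ) : E) ^ v j = ((u i : Eˣ) : E) ^ v i * ((u 0 : Eˣ) : E) ^ v 0 := by
      rw [← prod_subset (subset_univ {i, 0})]
      · rw [prod_pair hi]
      · intro j _ hj
        simp only [mem_insert, mem_singleton, not_or] at hj
        simp only [u, if_neg hj.1, if_neg hj.2, Units.val_one, one_pow]
    rw [h4] at h3
    simp only [u, if_true, if_neg (Ne.symm hi)] at h3
    have h5 : ζ ^ v i = ζ ^ v 0 := by
      have h6 : ζ ^ v i * ζ⁻¹ ^ v 0 = 1 := by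
        apply Units.ext
        push_cast
        push_cast at h3
        exact h3
      rw [inv_pow, mul_inv_eq_one] at h6
      exact h6
    rw [← hord]
    exact pow_eq_pow_iff_modEq.1 h5
  · intro h
    refine MonoidHom.ext fun u => ?_
    change ∏ j, ((u.1 j : Eˣ) : E) ^ v j = 1
    have h1 : ∀ j, (u.1 j) ^ v j = (u.1 j) ^ v 0 := by
      intro j
      refine pow_eq_pow_iff_modEq.2 ((h j).of_dvd ?_)
      rw [← Nat.card_units]
      exact orderOf_dvd_natCard _
    have h2 : ∏ j, (u.1 j) ^ v j = 1 := by
      simp only [h1, prod_pow]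
      have h3 : ∏ i, u.1 i = 1 := u.2
      rw [h3, one_pow]
    have h4 := congrArg (Units.val) h2
    push_cast at h4
    exact h4

theorem sum_chv [Finite E] [Fintype (ph E).ker] (v : Fin 5 →₀ ℕ) [Decidable (∀ i, v i ≡ v 0 [MOD Nat.card E - 1])] :
    ∑ u : (ph E).ker, chv v u = if ∀ i, v i ≡ v 0 [MOD Nat.card E - 1] then (1 : E) else 0 := by
  classical
  rw [sum_hom_units]
  by_cases h : ∀ i, v i ≡ v 0 [MOD Nat.card E - 1]
  · rw [if_pos h, if_pos ((chv_eq_one_iff v).2 h), ← Nat.card_eq_fintype_card, card_ker]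
  · rw [if_neg h, if_neg (fun h' => h ((chv_eq_one_iff v).1 h')), Nat.cast_zero]

/-- The exponents which contribute. -/
theorem ind_eq {m : ℕ} (hm : 0 < m) (v : Fin 5 →₀ ℕ) (hv : ∑ i, v i ≤ m)
    [Decidable (∀ i, v i ≡ v 0 [MOD m])] [Decidable (∀ i, v i = v 0)]
    [∀ i, Decidable (v = Finsupp.single i m)] :
    (if ∀ i, v i ≡ v 0 [MOD m] then (1 : E) else 0) =
      (if ∀ i, v i = v 0 then 1 else 0) + ∑ i, if v = Finsupp.single i m then 1 else 0 := by
  classical
  have hle : ∀ i, v i ≤ m := fun i =>
    (single_le_sum (fun _ _ => Nat.zero_le _) (mem_univ i)).trans hv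
  by_cases hc : ∀ i, v i = v 0
  · rw [if_pos hc, if_pos fun i => by rw [hc i]]
    have h0 : ∀ i, v ≠ Finsupp.single i m := by
      intro i hi
      obtain ⟨j, hj⟩ := exists_ne i
      have h1 : v i = m := by rw [hi]; simp
      have h2 : v j = 0 := by rw [hi]; simp [Ne.symm hj]
      rw [hc] at h1 h2
      omega
    simp [h0]
  · rw [if_neg hc, zero_add]
    by_cases hs : ∃ k, v = Finsupp.single k m
    · obtain ⟨k, hk⟩ := hs
      have h1 : ∀ i, v i ≡ v 0 [MOD m] := by
        intro i
        have h2 : ∀ j, v j ≡ 0 [MOD m] := by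
          intro j
          rw [hk, Finsupp.single_apply]
          split_ifs
          · exact (Nat.modEq_zero_iff_dvd).2 dvd_rfl
          · rfl
        exact (h2 i).trans (h2 0).symm
      rw [if_pos h1]
      have h3 : ∀ i, (v = Finsupp.single i m) ↔ k = i := by
        intro i
        rw [hk]
        constructor
        · intro h
          exact Finsupp.single_left_injective hm.ne' h
        · rintro rfl
          rfl
      simp only [h3]
      simp
    · push Not at hs
      rw [if_neg, eq_comm]
      · simp [hs]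
      · intro h
        push Not at hc
        obtain ⟨i, hi⟩ := hc
        have key : ∀ k, v k = m → v = Finsupp.single k m := by
          intro k hk
          ext j
          rw [Finsupp.single_apply]
          split_ifs with hkj
          · rw [← hkj, hk]
          · have h2 : v k + v j ≤ ∑ i, v i := by
              rw [← sum_pair hkj]
              exact sum_le_sum_of_subset (subset_univ _)
            omega
        rcases Nat.lt_or_gt_of_ne hi with h1 | h1
        · have h2 := (Nat.modEq_iff_dvd' h1.le).1 (h i)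
          have h3 := Nat.le_of_dvd (by omega) h2
          have := hle 0
          exact hs 0 (key 0 (by omega))
        · have h2 := (Nat.modEq_iff_dvd' h1.le).1 (h i).symm
          have h3 := Nat.le_of_dvd (by omega) h2
          have := hle i
          exact hs i (key i (by omega))

theorem sum_eq [Finite E] [Fintype (ph E).ker] (s : E) :
    ∑ u : (ph E).ker, (∑ i, ((u.1 i : Eˣ) : E) - s) ^ (Nat.card E - 1) =
      L E (ff s ^ (Nat.card E - 1)) + 5 := by
  classical
  have hm : 0 < Nat.card E - 1 := by
    have := Finite.one_lt_card (α := E)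
    omega
  set P := ff s ^ (Nat.card E - 1) with hP
  have h1 : ∀ u : (ph E).ker, (∑ i, ((u.1 i : Eˣ) : E) - s) ^ (Nat.card E - 1) =
      ∑ v ∈ P.support, coeff v P * chv v u := by
    intro u
    have h2 : (∑ i, ((u.1 i : Eˣ) : E) - s) ^ (Nat.card E - 1) =
        MvPolynomial.eval (fun i => ((u.1 i : Eˣ) : E)) P := by
      rw [hP, map_pow]
      unfold ff
      simp
    rw [h2, eval_eq']
    rfl
  simp only [h1]
  rw [sum_comm]
  have h3 : ∀ v ∈ P.support, ∑ u : (ph E).ker, coeff v P * chv v u =
      coeff v P * (if ∀ i, v i = v 0 then 1 else 0) +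
        ∑ i, coeff v P * (if v = Finsupp.single i (Nat.card E - 1) then 1 else 0) := by
    intro v hv
    rw [← mul_sum, sum_chv, ind_eq hm v (sum_le_of_mem s _ hv), mul_add, mul_sum]
  rw [sum_congr rfl h3, sum_add_distrib]
  congr 1
  · conv_rhs => rw [P.as_sum]
    rw [map_sum]
    refine sum_congr rfl fun v _ => ?_
    rw [L_monomial]
    split_ifs <;> simp
  · rw [sum_comm]
    have h4 : ∀ i, ∑ v ∈ P.support, coeff v P * (if v = Finsupp.single i (Nat.card E - 1) then 1 else 0) =
        (1 : E) := by
      intro i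
      simp only [mul_ite, mul_one, mul_zero]
      rw [sum_ite_eq', if_pos, hP, coeff_ff_pow]
      rw [mem_support_iff, hP, coeff_ff_pow]
      exact one_ne_zero
    simp only [h4]
    simp

theorem count_eq_sum [Finite E] [Fintype (ph E).ker] [DecidableEq E] (s : E) :
    ((count 5 s : ℕ) : E) =
      ∑ u : (ph E).ker, (1 - (∑ i, ((u.1 i : Eˣ) : E) - s) ^ (Nat.card E - 1)) := by
  classical
  have hm : Nat.card E - 1 ≠ 0 := by
    have := Finite.one_lt_card (α := E)
    omega
  have h1 : ∀ u : (ph E).ker, (1 - (∑ i, ((u.1 i : Eˣ) : E) - s) ^ (Nat.card E - 1)) =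
      if (∑ i, ((u.1 i : Eˣ) : E)) = s then (1 : E) else 0 := by
    intro u
    split_ifs with h
    · rw [h, sub_self, zero_pow hm, sub_zero]
    · have := Fintype.ofFinite E
      rw [Nat.card_eq_fintype_card, FiniteField.pow_card_sub_one_eq_one _ (sub_ne_zero.2 h),
        sub_self]
  simp only [h1]
  rw [sum_boole]
  congr 1
  have e : {y : Fin 5 → E // ∏ i, y i = 1 ∧ ∑ i, y i = s} ≃
      {u : (ph E).ker // (∑ i, ((u.1 i : Eˣ) : E)) = s} :=
    { toFun := fun y => ⟨⟨fun i => Units.mk0 (y.1 i) (by
          intro h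
          have h2 := y.2.1
          rw [prod_eq_zero (mem_univ i) h] at h2
          exact zero_ne_one h2), by
          rw [MonoidHom.mem_ker]
          apply Units.ext
          change ((∏ i, Units.mk0 (y.1 i) _ : Eˣ) : E) = 1
          push_cast
          exact y.2.1⟩, y.2.2⟩
      invFun := fun u => ⟨fun i => ((u.1.1 i : Eˣ) : E), by
          have h2 : ∏ i, u.1.1 i = 1 := u.1.2
          have h3 := congrArg Units.val h2
          push_cast at h3
          exact h3, u.2⟩
      left_inv := fun y => by
        apply Subtype.ext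
        rfl
      right_inv := fun u => by
        apply Subtype.ext
        apply Subtype.ext
        funext i
        apply Units.ext
        rfl }
  rw [count, Nat.card_congr e, Nat.card_eq_fintype_card, Fintype.card_subtype]

theorem count_five_eq [Finite E] (s : E) :
    ((count 5 s : ℕ) : E) = -4 - L E (ff s ^ (Nat.card E - 1)) := by
  classical
  have := Fintype.ofFinite (ph E).ker
  rw [count_eq_sum, sum_sub_distrib, sum_eq, sum_const, card_univ, nsmul_eq_mul,
    ← Nat.card_eq_fintype_card, card_ker]
  ring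

end Pool.Agent.LibDw64
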