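import Pool.Agent.LibDw64.Defs
import Pool.Agent.LibSS99.Main

open Finset Polynomial Module

namespace Pool.Agent.LibDw64

section act

/-- The solutions, one coordinate set apart and the others indexed by a cyclic group. -/
abbrev Sol2 (N : ℕ) [NeZero N] {E : Type*} [Field E] (s : E) : Type _ :=
  {y : E × (ZMod N → E) // y.1 * ∏ i, y.2 i = 1 ∧ y.1 + ∑ i, y.2 i = s}

variable {N : ℕ} [NeZero N] {E : Type*} [Field E] (s : E)

instance : MulAction (Multiplicative (ZMod N)) (Sol2 N s) where
  smul g y := ⟨(y.1.1, fun i => y.1.2 (i + g.toAdd)), by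
    have h1 : ∏ i, y.1.2 (i + g.toAdd) = ∏ i, y.1.2 i :=
      Fintype.prod_equiv (Equiv.addRight g.toAdd) _ _ fun i => rfl
    have h2 : ∑ i, y.1.2 (i + g.toAdd) = ∑ i, y.1.2 i :=
      Fintype.sum_equiv (Equiv.addRight g.toAdd) _ _ fun i => rfl
    refine ⟨?_, ?_⟩
    · change y.1.1 * ∏ i, y.1.2 (i + g.toAdd) = 1
      rw [h1]
      exact y.2.1
    · change y.1.1 + ∑ i, y.1.2 (i + g.toAdd) = s
      rw [h2]
      exact y.2.2⟩
  one_smul y := by
    apply Subtype.ext
    refine Prod.ext rfl ?_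
    funext i
    change y.1.2 (i + 0) = y.1.2 i
    rw [add_zero]
  mul_smul g h y := by
    apply Subtype.ext
    refine Prod.ext rfl ?_
    funext i
    change y.1.2 (i + (g.toAdd + h.toAdd)) = y.1.2 (i + g.toAdd + h.toAdd)
    rw [add_assoc]

lemma smul_snd (g : Multiplicative (ZMod N)) (y : Sol2 N s) (i : ZMod N) :
    (g • y).1.2 i = y.1.2 (i + g.toAdd) := rfl

lemma mem_fixed (y : Sol2 N s) : y ∈ MulAction.fixedPoints (Multiplicative (ZMod N)) (Sol2 N s) ↔
    ∀ i, y.1.2 i = y.1.2 0 := by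
  constructor
  · intro h i
    have h1 := congrArg (fun z : Sol2 N s => z.1.2 0) (h (Multiplicative.ofAdd i))
    simp only [smul_snd, toAdd_ofAdd, zero_add] at h1
    exact h1
  · intro h g
    apply Subtype.ext
    refine Prod.ext rfl ?_
    funext i
    change y.1.2 (i + g.toAdd) = y.1.2 i
    rw [h, h i]

/-- The fixed points are the roots of the trinomial. -/
noncomputable def fixedEquiv : MulAction.fixedPoints (Multiplicative (ZMod N)) (Sol2 N s) ≃
    {u : E // (N : E) * u ^ (N + 1) - s * u ^ N + 1 = 0} where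
  toFun y := ⟨y.1.1.2 0, by
    have h := (mem_fixed s y.1).1 y.2
    have h1 := y.1.2.1
    have h2 := y.1.2.2
    simp only [h, Finset.prod_const, Finset.sum_const, Finset.card_univ, ZMod.card,
      nsmul_eq_mul] at h1 h2
    linear_combination (y.1.1.2 0) ^ N * h2 - h1⟩
  invFun u := ⟨⟨(s - N * u.1, fun _ => u.1), by
    simp only [Finset.prod_const, Finset.sum_const, Finset.card_univ, ZMod.card, nsmul_eq_mul]
    exact ⟨by linear_combination -u.2, by ring⟩⟩, (mem_fixed s _).2 fun i => rfl⟩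
  left_inv y := by
    apply Subtype.ext
    apply Subtype.ext
    have h := (mem_fixed s y.1).1 y.2
    have h2 := y.1.2.2
    refine Prod.ext ?_ ?_
    · simp only [h, Finset.sum_const, Finset.card_univ, ZMod.card, nsmul_eq_mul] at h2
      change s - N * y.1.1.2 0 = y.1.1.1
      linear_combination -h2
    · funext i
      exact (h i).symm
  right_inv u := rfl

end act

/-- Reindexing. -/
theorem count_eq_card2 (N : ℕ) [NeZero N] {E : Type*} [Field E] (s : E) :
    count (N + 1) s = Nat.card (Sol2 N s) := by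
  obtain ⟨n, rfl⟩ := Nat.exists_eq_succ_of_ne_zero (NeZero.ne N)
  unfold count Sol2
  refine Nat.card_congr (Equiv.subtypeEquiv (Fin.consEquiv (fun _ => E)).symm fun y => ?_)
  rw [Fin.prod_univ_succ, Fin.sum_univ_succ]
  rfl

/-- The number of solutions modulo `m`. -/
theorem count_modEq (m k : ℕ) [Fact m.Prime] {E : Type*} [Field E] [Finite E] (s : E) :
    count (m ^ k + 1) s ≡
      Nat.card {u : E // ((m ^ k : ℕ) : E) * u ^ (m ^ k + 1) - s * u ^ (m ^ k) + 1 = 0} [MOD m] := by
  have : NeZero (m ^ k) := ⟨pow_ne_zero _ (Fact.out : m.Prime).ne_zero⟩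
  rw [count_eq_card2, ← Nat.card_congr (fixedEquiv (N := m ^ k) s)]
  have hG : IsPGroup m (Multiplicative (ZMod (m ^ k))) := by
    refine IsPGroup.of_card (n := k) ?_
    rw [Nat.card_eq_fintype_card, Fintype.card_multiplicative, ZMod.card]
  exact hG.card_modEq_card_fixedPoints (Sol2 (m ^ k) s)

end Pool.Agent.LibDw64
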