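import Pool.Agent.LibDw64.P
import Pool.Agent.LibSS99.G
import Pool.Agent.LibSS99.J
import Pool.Agent.LibDw64.B

open Finset Polynomial Module

namespace Pool.Agent.LibDw64

theorem IsFrobN.isFrob {F : Type} [Field F] {n : ℕ} {s : F}
    {A : Matrix (Fin (n - 1)) (Fin (n - 1)) ℂ} (hA : IsFrobN F n s A) (hn : Odd n) :
    IsFrob F n s A := by
  intro E _ _ _
  have h1 : Even (n - 1) := Nat.Odd.sub_odd hn odd_one
  rw [hA E, hn.neg_one_pow, h1.neg_one_pow]
  ring

theorem exists_c' (N : ℕ) (Q : ℤ) : ∃ c : ℤ, c * Q = (Q - 1) ^ N - (-1) ^ N := by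
  have h : Q ∣ (Q - 1) ^ N - (-1) ^ N := by
    have h1 : (Q - 1) - (-1) ∣ (Q - 1) ^ N - (-1) ^ N := sub_dvd_pow_sub_pow _ _ _
    simpa using h1
  obtain ⟨c, hc⟩ := h
  exact ⟨c, by rw [hc]; ring⟩

theorem neg_one_pow_zmod (m k : ℕ) [Fact m.Prime] : (-1 : ZMod m) ^ (m ^ k) = -1 := by
  exact ZMod.pow_card_pow (-1)

theorem c_mod' (m k : ℕ) [Fact m.Prime] (c Q : ℤ) (hc : c * Q = (Q - 1) ^ (m ^ k) - (-1) ^ (m ^ k))
    (hQ : (Q : ZMod m) ≠ 0) : (c : ZMod m) = 1 := by
  have h1 : (c : ZMod m) * Q = ((Q : ZMod m) - 1) ^ (m ^ k) - (-1) ^ (m ^ k) := by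
    exact_mod_cast congrArg (Int.cast (R := ZMod m)) hc
  rw [ZMod.pow_card_pow, ZMod.pow_card_pow, sub_neg_eq_add, sub_add_cancel] at h1
  exact mul_right_cancel₀ hQ (h1.trans (one_mul _).symm)

theorem trace_mod {F : Type} [Field F] [Finite F] {m k : ℕ} [Fact m.Prime] (hm : (m : F) ≠ 0)
    {s : F} {A : Matrix (Fin (m ^ k + 1 - 1)) (Fin (m ^ k + 1 - 1)) ℂ}
    (hA : IsFrobN F (m ^ k + 1) s A) (g : ℕ → ℕ)
    (hg : ∀ (E : Type) [Field E] [Finite E] [Algebra F E],
      Nat.card {u : E // aeval u (tri (m ^ k) s) = 0} = g (finrank F E)) (r : ℕ) (hr : 0 < r) :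
    ∃ t : ℤ, (A ^ r).trace = t ∧ (t : ZMod m) = g r - 1 := by
  obtain ⟨p, hp⟩ := CharP.exists F
  have : Fact p.Prime := ⟨CharP.char_is_prime F p⟩
  have : NeZero r := ⟨hr.ne'⟩
  let E := FiniteField.Extension F p r
  have hE : finrank F E = r := FiniteField.finrank_extension F p r
  have hcard : Nat.card E = Nat.card F ^ r := by
    rw [← hE]
    exact Module.natCard_eq_pow_finrank
  obtain ⟨c, hc⟩ := exists_c' (m ^ k) (Nat.card E : ℤ)
  have hE0 : (Nat.card E : ℂ) ≠ 0 := by
    have := Nat.card_pos (α := E)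
    exact_mod_cast this.ne'
  refine ⟨(-1) ^ (m ^ k + 1) * (count (m ^ k + 1) (algebraMap F E s) - c), ?_, ?_⟩
  · have h1 := hA E
    rw [hE] at h1
    rw [h1]
    have h2 : ((c : ℤ) : ℂ) * (Nat.card E : ℂ) =
        ((Nat.card E : ℂ) - 1) ^ (m ^ k) - (-1) ^ (m ^ k) := by
      have := congrArg (Int.cast (R := ℂ)) hc
      push_cast at this
      exact this
    rw [Nat.add_sub_cancel, ← h2, mul_div_assoc, div_self hE0, mul_one]
    push_cast
    rfl
  · have hq : ((Nat.card F : ℕ) : ZMod m) ≠ 0 := card_ne hm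
    have hQ : ((Nat.card E : ℤ) : ZMod m) ≠ 0 := by
      rw [Int.cast_natCast, hcard]
      push_cast
      exact pow_ne_zero _ hq
    have h2 := c_mod' m k c (Nat.card E : ℤ) hc hQ
    have h3 := (ZMod.natCast_eq_natCast_iff _ _ _).2 (count_modEq m k (algebraMap F E s))
    have h4 : Nat.card {u : E // ((m ^ k : ℕ) : E) * u ^ (m ^ k + 1) -
        algebraMap F E s * u ^ (m ^ k) + 1 = 0} = g r := by
      have h5 := hg E
      rw [hE] at h5
      rw [← h5]
      refine Nat.card_congr (Equiv.subtypeEquivRight fun u => ?_)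
      unfold tri
      simp
    rw [h4] at h3
    push_cast
    rw [pow_succ, neg_one_pow_zmod, neg_one_mul, neg_neg, one_mul, h2, h3]

/-- The reduction modulo `m`. -/
theorem nodup_of_omega {F : Type} [Field F] [Finite F] {m k : ℕ} [Fact m.Prime]
    (hm : (m : F) ≠ 0) {s : F} {A : Matrix (Fin (m ^ k + 1 - 1)) (Fin (m ^ k + 1 - 1)) ℂ}
    (hA : IsFrobN F (m ^ k + 1) s A) (g : ℕ → ℕ)
    (hg : ∀ (E : Type) [Field E] [Finite E] [Algebra F E],
      Nat.card {u : E // aeval u (tri (m ^ k) s) = 0} = g (finrank F E))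
    (hΩ : ∀ (L : Type) [Field L] [CharP L m] [IsAlgClosed L], ∃ Ω : Finset L, (0 : L) ∉ Ω ∧
      #Ω = m ^ k ∧ ∀ r, 0 < r → ∑ w ∈ Ω, w ^ r = g r - 1) : A.charpoly.roots.Nodup := by
  classical
  obtain ⟨L, _, _, _, ⟨φ⟩⟩ := LibSS99.exists_reduction ℂ m
  obtain ⟨Ω, h0, hc, hs⟩ := hΩ L
  choose! t ht1 ht2 using trace_mod hm hA g hg
  rw [← Matrix.charpoly_toLin']
  let ι : ZMod m →+* L := ZMod.castHom dvd_rfl L
  refine LibSS99.nodup_of_reduction (Matrix.toLin' A) φ Ω h0 ?_
    (fun r => ((t r : ℤ) : integralClosure ℤ ℂ)) ?_ ?_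
  · rw [hc, finrank_fin_fun, Nat.add_sub_cancel]
  · intro r hr
    rw [← Matrix.toLin'_pow, Matrix.trace_toLin'_eq, ht1 r hr]
    push_cast
    rfl
  · intro r hr
    rw [map_intCast, hs r hr, ← map_intCast ι, ht2 r hr]
    simp

theorem natDegree_tri {F : Type} [Field F] {N : ℕ} (hN : (N : F) ≠ 0) (s : F) :
    (tri N s).natDegree = N + 1 := by
  unfold tri
  have h0 : N ≠ 0 := by
    rintro rfl
    simp at hN
  have h1 : (C (N : F) * X ^ (N + 1)).natDegree = N + 1 := natDegree_C_mul_X_pow _ _ hN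
  have h2 : (C s * X ^ N : F[X]).natDegree ≤ N := natDegree_C_mul_X_pow_le _ _
  rw [sub_add]
  rw [natDegree_sub_eq_left_of_natDegree_lt, h1]
  rw [h1]
  refine lt_of_le_of_lt (natDegree_sub_le _ _) ?_
  rw [natDegree_one]
  omega

theorem card_rootset {F : Type} [Field F] {P : F[X]} (hP : P ≠ 0) (E : Type) [Field E]
    [DecidableEq E] [Algebra F E] :
    Nat.card {u : E // aeval u P = 0} = #((P.aroots E).toFinset) := by
  have h1 : ∀ u : E, aeval u P = 0 ↔ u ∈ (P.aroots E).toFinset := by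
    intro u
    rw [Multiset.mem_toFinset, mem_aroots]
    exact ⟨fun h => ⟨hP, h⟩, fun h => h.2⟩
  rw [Nat.card_congr (Equiv.subtypeEquivRight h1), Nat.card_eq_fintype_card, Fintype.card_coe]

/-- The trinomial is irreducible. -/
theorem nodup_of_irreducible {F : Type} [Field F] [Finite F] {m k : ℕ} [Fact m.Prime]
    (hm : (m : F) ≠ 0) (hk : 0 < k) {s : F}
    {A : Matrix (Fin (m ^ k + 1 - 1)) (Fin (m ^ k + 1 - 1)) ℂ}
    (hA : IsFrobN F (m ^ k + 1) s A) (hirr : Irreducible (tri (m ^ k) s)) :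
    A.charpoly.roots.Nodup := by
  classical
  have hN : ((m ^ k : ℕ) : F) ≠ 0 := by
    push_cast
    exact pow_ne_zero _ hm
  refine nodup_of_omega hm hA (fun r => if m ^ k + 1 ∣ r then m ^ k + 1 else 0) ?_ ?_
  · intro E _ _ _
    rw [card_rootset hirr.ne_zero, LibSS99.card_roots hirr, natDegree_tri hN]
  · intro L _ _ _
    have hL : ((m ^ k + 1 : ℕ) : L) = 1 := by
      push_cast
      rw [CharP.cast_eq_zero L m, zero_pow hk.ne', zero_add]
    have : NeZero ((m ^ k + 1 : ℕ) : L) := ⟨by rw [hL]; exact one_ne_zero⟩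
    obtain ⟨ζ, hζ⟩ := HasEnoughRootsOfUnity.exists_primitiveRoot L (m ^ k + 1)
    have hinj : Set.InjOn (fun j : ℕ => ζ ^ j) (range (m ^ k + 1)) := by
      intro i hi j hj hij
      exact hζ.pow_inj (by simpa using hi) (by simpa using hj) hij
    have hinj' : Set.InjOn (fun j : ℕ => ζ ^ j) ((range (m ^ k + 1)).erase 0) :=
      hinj.mono (by rw [coe_erase]; exact Set.sdiff_subset)
    have h0 : 0 ∈ range (m ^ k + 1) := mem_range.2 (Nat.succ_pos _)
    refine ⟨((range (m ^ k + 1)).erase 0).image fun j => ζ ^ j, ?_, ?_, ?_⟩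
    · intro h
      obtain ⟨j, _, hj⟩ := mem_image.1 h
      exact pow_ne_zero j (hζ.ne_zero (Nat.succ_ne_zero _)) hj
    · rw [card_image_of_injOn hinj', card_erase_of_mem h0, card_range, Nat.add_sub_cancel]
    · intro r hr
      rw [sum_image hinj', eq_sub_iff_add_eq]
      have h1 := sum_erase_add (range (m ^ k + 1)) (fun j => (ζ ^ j) ^ r) h0
      simp only [pow_zero, one_pow] at h1
      rw [h1, LibSS99.sum_pow_primitive hζ]
      split_ifs <;> simp

/-- The trinomial is the product of two irreducible factors. -/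
theorem nodup_of_two {F : Type} [Field F] [Finite F] {m k : ℕ} [Fact m.Prime]
    (hm : (m : F) ≠ 0) (hk : 0 < k) {s : F}
    {A : Matrix (Fin (m ^ k + 1 - 1)) (Fin (m ^ k + 1 - 1)) ℂ}
    (hA : IsFrobN F (m ^ k + 1) s A) {D D' : F[X]} (hD : Irreducible D) (hD' : Irreducible D')
    (hDD : tri (m ^ k) s = D * D') (hcop : Nat.Coprime D.natDegree D'.natDegree)
    (h1 : ¬ m ∣ D.natDegree) (h2 : ¬ m ∣ D'.natDegree) : A.charpoly.roots.Nodup := by
  classical
  have hN : ((m ^ k : ℕ) : F) ≠ 0 := by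
    push_cast
    exact pow_ne_zero _ hm
  have hm2 := (Fact.out : m.Prime).two_le
  have hmk : m ≤ m ^ k := Nat.le_self_pow hk.ne' m
  have hdeg : D.natDegree + D'.natDegree = m ^ k + 1 := by
    rw [← natDegree_mul hD.ne_zero hD'.ne_zero, ← hDD, natDegree_tri hN]
  have hne : D.natDegree ≠ D'.natDegree := by
    intro h
    rw [h, Nat.coprime_self] at hcop
    omega
  have hcopr : IsCoprime D D' := by
    rw [hD.coprime_iff_not_dvd]
    intro h
    have h3 : Associated D D' := hD.associated_of_dvd hD' h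
    exact hne (natDegree_eq_of_degree_eq (degree_eq_degree_of_associated h3))
  refine nodup_of_omega hm hA (fun r => (if D.natDegree ∣ r then D.natDegree else 0) +
    if D'.natDegree ∣ r then D'.natDegree else 0) ?_ ?_
  · intro E _ _ _
    have hne0 : D * D' ≠ 0 := mul_ne_zero hD.ne_zero hD'.ne_zero
    rw [hDD, card_rootset hne0]
    have h3 : ((D * D').aroots E).toFinset = (D.aroots E).toFinset ∪ (D'.aroots E).toFinset := by
      rw [aroots_mul hne0, Multiset.toFinset_add]
    have h4 : Disjoint (D.aroots E).toFinset (D'.aroots E).toFinset := by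
      rw [Finset.disjoint_left]
      intro x hx hx'
      rw [Multiset.mem_toFinset, mem_aroots] at hx hx'
      obtain ⟨a, b, hab⟩ := hcopr
      have h5 := congrArg (aeval x) hab
      rw [map_add, map_mul, map_mul, hx.2, hx'.2, mul_zero, mul_zero, add_zero, map_one] at h5
      exact zero_ne_one h5
    rw [h3, card_union_of_disjoint h4, LibSS99.card_roots hD, LibSS99.card_roots hD']
  · intro L _ _ _
    have key : ∀ x : ℕ, ¬ m ∣ x → (x : L) ≠ 0 := fun x hx h =>
      hx ((CharP.cast_eq_zero_iff L m x).1 h)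
    obtain ⟨Ω, h0, hc, hs⟩ := LibSS99.exists_omega (L := L)
      (![D.natDegree, D'.natDegree] : Fin 2 → ℕ) (by
        intro i
        fin_cases i
        · exact key _ h1
        · exact key _ h2) (by
        intro i j hij
        fin_cases i <;> fin_cases j
        · exact absurd rfl hij
        · exact hcop
        · exact hcop.symm
        · exact absurd rfl hij)
    refine ⟨Ω, h0, ?_, ?_⟩
    · rw [hc]
      simp only [Fin.prod_univ_two, Matrix.cons_val_zero, Matrix.cons_val_one]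
      have a1 : 0 < D.natDegree := hD.natDegree_pos
      have a2 : 0 < D'.natDegree := hD'.natDegree_pos
      obtain ⟨x, hx⟩ := Nat.exists_eq_add_of_lt a1
      obtain ⟨y, hy⟩ := Nat.exists_eq_add_of_lt a2
      rw [hx, hy] at hdeg ⊢
      simp only [Nat.add_sub_cancel, zero_add]
      have : (x + 1) * (y + 1) = x * y + (x + y + 1) := by ring
      rw [this, Nat.add_sub_cancel_left]
      omega
    · intro r hr
      rw [hs r]
      simp only [Fin.prod_univ_two, Matrix.cons_val_zero, Matrix.cons_val_one]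
      by_cases c1 : D.natDegree ∣ r <;> by_cases c2 : D'.natDegree ∣ r <;>
        simp only [c1, c2, if_true, if_false] <;> push_cast <;> ring

end Pool.Agent.LibDw64
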